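import Pool.Agent.Lib.AD86.Liou

/-! Endomorphisms and connections of an explicit bundle on the curve `y ^ 2 = x ^ 5 + 1`. -/

open Set Filter Topology Complex

noncomputable section

namespace Pool.Agent.Lib.AD86

/-- A property holds near the point at infinity. -/
def Far (p : ℂ → ℂ → Prop) : Prop := ∃ R : ℝ, ∀ x y, y ^ 2 = x ^ 5 + 1 → R ≤ ‖x‖ → p x y

theorem Far.and {p q : ℂ → ℂ → Prop} (h : Far p) (h' : Far q) : Far fun x y => p x y ∧ q x y :=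
  let ⟨R, a⟩ := h
  let ⟨S, b⟩ := h'
  ⟨max R S, fun x y e l => ⟨a x y e (le_of_max_le_left l), b x y e (le_of_max_le_right l)⟩⟩

theorem Far.mono {p q : ℂ → ℂ → Prop} (h : Far p)
    (h' : ∀ x y, y ^ 2 = x ^ 5 + 1 → p x y → q x y) : Far q :=
  let ⟨R, a⟩ := h
  ⟨R, fun x y e l => h' x y e (a x y e l)⟩

theorem far_basic : Far fun x y => x ≠ 0 ∧ y ≠ 0 ∧ 1 ≤ ‖x‖ ∧ 1 ≤ ‖y‖ ∧ ‖x ^ 2 / y‖ ≤ 1 ∧
    ‖y / x ^ 2‖ ≤ 2 * √‖x‖ ∧ ‖y / x ^ 2‖ ^ 2 ≤ 2 * ‖x‖ := by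
  refine ⟨2, fun x y e l => ?_⟩
  have a := norm_sub_norm_le (x ^ 5) (-1)
  have b := norm_add_le (x ^ 5) 1
  rw [sub_neg_eq_add, norm_neg] at a
  rw [← e, norm_pow, norm_pow, norm_one] at a b
  have x0 : 0 < ‖x‖ := by linarith
  have c : (2 : ℝ) ^ 4 ≤ ‖x‖ ^ 4 := pow_le_pow_left₀ (by norm_num) l 4
  have d : ‖x‖ ^ 4 ≤ ‖y‖ ^ 2 := by nlinarith
  have y1 : 1 ≤ ‖y‖ := by nlinarith [norm_nonneg y]
  have f : ‖y / x ^ 2‖ ^ 2 ≤ 2 * ‖x‖ := by
    rw [norm_div, norm_pow, div_pow, div_le_iff₀ (by positivity)]; nlinarith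
  refine ⟨norm_pos_iff.1 x0, norm_pos_iff.1 (by linarith), by linarith, y1, ?_, ?_, f⟩
  · rw [norm_div, norm_pow, div_le_one (by linarith)]
    exact (abs_le_of_sq_le_sq' (by nlinarith) (norm_nonneg _)).2
  · exact abs_le_of_sq_le_sq' (by rw [mul_pow, Real.sq_sqrt x0.le]; linarith) (by positivity) |>.2

/-- Bounded near the point at infinity. -/
def Bd (f : ℂ → ℂ → ℂ) : Prop := ∃ K : ℝ, 0 ≤ K ∧ Far fun x y => ‖f x y‖ ≤ K

theorem Bd.congr {f g : ℂ → ℂ → ℂ} (h : Bd f) (e : Far fun x y => f x y = g x y) : Bd g :=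
  let ⟨K, k, a⟩ := h
  ⟨K, k, (a.and e).mono fun _ _ _ b => b.2 ▸ b.1⟩

theorem Bd.sub {f g : ℂ → ℂ → ℂ} (h : Bd f) (h' : Bd g) : Bd fun x y => f x y - g x y :=
  let ⟨K, k, a⟩ := h
  let ⟨L, l, b⟩ := h'
  ⟨K + L, add_nonneg k l, (a.and b).mono fun _ _ _ c => (norm_sub_le _ _).trans (add_le_add c.1 c.2)⟩

theorem Bd.t {f : ℂ → ℂ → ℂ} (h : Bd f) : Bd fun x y => x ^ 2 / y * f x y :=
  let ⟨K, k, a⟩ := h
  ⟨K, k, (a.and far_basic).mono fun _ _ _ c => (norm_mul _ _).trans_le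
    ((mul_le_of_le_one_left (norm_nonneg _) c.2.2.2.2.2.1).trans c.1)⟩

theorem Hol.sub {u v : ℂ → ℂ → ℂ} (h : Hol u) (h' : Hol v) : Hol fun x y => u x y - v x y :=
  ⟨h.cont.sub h'.cont, fun Y x h1 h2 h3 => (h.diff Y x h1 h2 h3).sub (h'.diff Y x h1 h2 h3)⟩

variable {u : ℂ → ℂ → ℂ} {k : ℂ}

theorem h0_one (h : Hol u) (hb : Bd fun x y => x ^ 2 / y * u x y) :
    ∃ c, ∀ x y, y ^ 2 = x ^ 5 + 1 → u x y = c := by
  obtain ⟨K, k0, a⟩ := hb
  obtain ⟨R, b⟩ := (a.and far_basic).mono (q := fun x y => ‖u x y‖ ≤ 2 * K * √‖x‖)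
    fun x y _ ⟨c, x0, y0, _, _, _, d, _⟩ => by
      rw [show u x y = y / x ^ 2 * (x ^ 2 / y * u x y) by field_simp, norm_mul, mul_right_comm]
      exact mul_le_mul d c (norm_nonneg _) (by positivity)
  exact ft0 h b

theorem h0_zero (h : Hol u) (hb : Bd u) : ∃ c, ∀ x y, y ^ 2 = x ^ 5 + 1 → u x y = c :=
  h0_one h hb.t

theorem h1_zero (h : Hol u) (hb : Bd fun x y => u x y - k * (y / x ^ 2)) : k = 0 := by
  obtain ⟨K, k0, a⟩ := hb
  obtain ⟨R, b⟩ := (a.and far_basic).mono (q := fun x y => ‖x * u x y - k * (y / x)‖ ≤ K * ‖x‖)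
    fun x y _ ⟨c, x0, _⟩ => by
      rw [show x * u x y - k * (y / x) = (u x y - k * (y / x ^ 2)) * x by field_simp, norm_mul]
      exact mul_le_mul_of_nonneg_right c (norm_nonneg _)
  exact ft1 (u := fun x y => x * u x y) ⟨continuous_fst.continuousOn.mul h.cont,
    fun Y x h1 h2 h3 => differentiableAt_id.mul (h.diff Y x h1 h2 h3)⟩ b

theorem h1_two (h : Hol u)
    (hb : Bd fun x y => x ^ 2 / y * (x ^ 2 / y * (u x y - k * (y / x)))) : k = 0 := by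
  obtain ⟨K, k0, a⟩ := hb
  obtain ⟨R, b⟩ := (a.and far_basic).mono (q := fun x y => ‖u x y - k * (y / x)‖ ≤ 2 * K * ‖x‖)
    fun x y _ ⟨c, x0, y0, _, _, _, _, d⟩ => by
      rw [show u x y - k * (y / x) = (y / x ^ 2) ^ 2 *
        (x ^ 2 / y * (x ^ 2 / y * (u x y - k * (y / x)))) by field_simp, norm_mul, norm_pow,
        mul_right_comm]
      exact mul_le_mul d c (norm_nonneg _) (by positivity)
  exact ft1 h b

theorem h1_neg (h : Hol u) (hb : Bd fun x y => y / x ^ 2 * (u x y - k * (y / x ^ 2))) :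
    k = 0 ∧ ∀ x y, y ^ 2 = x ^ 5 + 1 → u x y = 0 := by
  have a : Bd fun x y => u x y - k * (y / x ^ 2) := hb.t.congr
    (far_basic.mono fun x y _ ⟨x0, y0, _⟩ => by field_simp)
  obtain rfl := h1_zero h a
  simp only [zero_mul, sub_zero] at a hb
  obtain ⟨c, hc⟩ := h0_zero h a
  have := h1_zero (u := fun _ _ => 0) (k := -c) ⟨continuousOn_const, fun _ _ _ _ _ =>
    differentiableAt_const _⟩ (hb.congr ⟨0, fun x y e _ => by
      beta_reduce; rw [hc x y e]; ring⟩)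
  exact ⟨rfl, fun x y e => (hc x y e).trans (neg_eq_zero.1 this)⟩

variable {ι : Type*} [Fintype ι]

/-- The transition matrix, given by its action on rows and columns. -/
structure IsG (a b p q : ι) (x y : ℂ) (G : Matrix ι ι ℂ) : Prop where
  ra : ∀ (M : Matrix ι ι ℂ) j, (G * M) a j = M a j + y / x ^ 2 * M p j
  rb : ∀ (M : Matrix ι ι ℂ) j, (G * M) b j = M b j + y / x * M q j
  rp : ∀ (M : Matrix ι ι ℂ) j, (G * M) p j = x ^ 2 / y * M p j + x * M q j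
  rq : ∀ (M : Matrix ι ι ℂ) j, (G * M) q j = y / x ^ 2 * M q j
  rw : ∀ w, w ≠ a → w ≠ b → w ≠ p → w ≠ q → ∀ (M : Matrix ι ι ℂ) j, (G * M) w j = M w j
  ca : ∀ (M : Matrix ι ι ℂ) i, (M * G) i a = M i a
  cb : ∀ (M : Matrix ι ι ℂ) i, (M * G) i b = M i b
  cp : ∀ (M : Matrix ι ι ℂ) i, (M * G) i p = M i p * (x ^ 2 / y) + M i a * (y / x ^ 2)
  cq : ∀ (M : Matrix ι ι ℂ) i, (M * G) i q = M i q * (y / x ^ 2) + M i b * (y / x) + M i p * x

/-- The transition matrix. -/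
def gm [DecidableEq ι] (a b p q : ι) (x y : ℂ) : Matrix ι ι ℂ :=
  1 + Matrix.single p p (x ^ 2 / y - 1) + Matrix.single q q (y / x ^ 2 - 1) +
    Matrix.single a p (y / x ^ 2) + Matrix.single b q (y / x) + Matrix.single p q x

theorem isG [DecidableEq ι] {a b p q : ι} (ab : a ≠ b) (ap : a ≠ p) (aq : a ≠ q) (bp : b ≠ p) (bq : b ≠ q)
    (pq : p ≠ q) (x y : ℂ) : IsG a b p q x y (gm a b p q x y) := by
  constructor <;> intros <;>
    simp [gm, Matrix.add_mul, Matrix.mul_add, ab.symm, ap.symm, aq.symm, bp.symm, bq.symm,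
      pq.symm, *] <;> ring

variable {a b p q : ι} {G T S D : ℂ → ℂ → Matrix ι ι ℂ}

/-- Endomorphisms preserve the flag, with constant coefficients. -/
theorem endo_flag (hG : Far fun x y => IsG a b p q x y (G x y))
    (hT : ∀ i j, Hol fun x y => T x y i j) (hS : ∀ i j, Bd fun x y => S x y i j)
    (he : Far fun x y => S x y * G x y = G x y * T x y) :
    ∃ α β γ : ℂ, ∀ x y, y ^ 2 = x ^ 5 + 1 → T x y a a = α ∧ T x y a b = β ∧ T x y b b = γ ∧
      T x y b a = 0 ∧ ∀ i, i ≠ a → i ≠ b → T x y i a = 0 ∧ T x y i b = 0 := by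
  have hh := (hG.and he).and far_basic
  have col : ∀ j, (Far fun x y => ∀ i, S x y i j = (G x y * T x y) i j) →
      (∀ x y, y ^ 2 = x ^ 5 + 1 → T x y q j = 0 ∧ T x y p j = 0) ∧
      (∃ c, ∀ x y, y ^ 2 = x ^ 5 + 1 → T x y a j = c) ∧
      (∃ c, ∀ x y, y ^ 2 = x ^ 5 + 1 → T x y b j = c) ∧ ∀ w, w ≠ a → w ≠ b → w ≠ p → w ≠ q →
        ∃ c, ∀ x y, y ^ 2 = x ^ 5 + 1 → T x y w j = c := fun j hj => by
    have h1 := (h1_neg (k := 0) (hT q j) ((hS q j).congr ((hj.and hG).mono fun x y _ c => by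
      rw [c.1, c.2.rq]; ring))).2
    obtain ⟨k, h2⟩ := h0_one (hT p j) ((hS p j).congr ((hj.and hG).mono fun x y e c => by
      rw [c.1, c.2.rp, h1 x y e]; ring))
    have h3 := h1_zero (k := -k) (hT a j) ((hS a j).congr ((hj.and hG).mono fun x y e c => by
      rw [c.1, c.2.ra, h2 x y e]; ring))
    obtain rfl := neg_eq_zero.1 h3
    exact ⟨fun x y e => ⟨h1 x y e, h2 x y e⟩,
      h0_zero (hT a j) ((hS a j).congr ((hj.and hG).mono fun x y e c => by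
        rw [c.1, c.2.ra, h2 x y e]; ring)),
      h0_zero (hT b j) ((hS b j).congr ((hj.and hG).mono fun x y e c => by
        rw [c.1, c.2.rb, h1 x y e]; ring)), fun w w1 w2 w3 w4 =>
      h0_zero (hT w j) ((hS w j).congr ((hj.and hG).mono fun x y e c => by
        rw [c.1, c.2.rw w w1 w2 w3 w4]))⟩
  have fa : Far fun x y => ∀ i, S x y i a = (G x y * T x y) i a :=
    (hG.and he).mono fun x y _ c i => by rw [← c.2, c.1.ca]
  have fb : Far fun x y => ∀ i, S x y i b = (G x y * T x y) i b :=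
    (hG.and he).mono fun x y _ c i => by rw [← c.2, c.1.cb]
  obtain ⟨a1, ⟨α, a2⟩, ⟨κ, a3⟩, a4⟩ := col a fa
  obtain ⟨b1, ⟨β, b2⟩, ⟨γ, b3⟩, b4⟩ := col b fb
  have k0 := h1_zero (k := -κ) ((hT p p).sub (hT b p)) (((hS p p).sub (hS b p).t).congr
    ((hh.and fa).mono fun x y e ⟨⟨⟨g, c⟩, x0, y0, _⟩, d⟩ => by
      have c1 := congrFun (congrFun c p) p
      have c2 := congrFun (congrFun c b) p
      rw [g.cp, g.rp, d, g.rp, (a1 x y e).1, (a1 x y e).2] at c1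
      rw [g.cp, g.rb, d, g.rb, (a1 x y e).1, a3 x y e] at c2
      simp only [mul_zero, add_zero, zero_mul] at c1 c2
      have s1 : S x y p p = y / x ^ 2 * (x ^ 2 / y * T x y p p + x * T x y q p) := by
        rw [← c1]; field_simp
      have s2 : S x y b p =
          y / x ^ 2 * (T x y b p + y / x * T x y q p - κ * (y / x ^ 2)) := by
        rw [← c2]; field_simp; ring
      rw [s1, s2]
      field_simp
      ring))
  refine ⟨α, β, γ, fun x y e => ⟨a2 x y e, b2 x y e, b3 x y e,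
    (a3 x y e).trans (neg_eq_zero.1 k0), fun w w1 w2 => ?_⟩⟩
  by_cases w3 : w = p
  · exact w3 ▸ ⟨(a1 x y e).2, (b1 x y e).2⟩
  by_cases w4 : w = q
  · exact w4 ▸ ⟨(a1 x y e).1, (b1 x y e).1⟩
  obtain ⟨k1, c1⟩ := a4 w w1 w2 w3 w4
  obtain ⟨k2, c2⟩ := b4 w w1 w2 w3 w4
  have f1 : Far fun x y => S x y w p = y / x ^ 2 * (T x y w p - k1 * (y / x ^ 2)) :=
    (hh.and fa).mono fun x y e ⟨⟨⟨g, c⟩, x0, y0, _⟩, d⟩ => by
      have c3 := congrFun (congrFun c w) p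
      rw [g.cp, g.rw w w1 w2 w3 w4, d, g.rw w w1 w2 w3 w4, c1 x y e] at c3
      rw [← c3]
      field_simp
      ring
  obtain ⟨rfl, d1⟩ := h1_neg (hT w p) ((hS w p).congr f1)
  obtain rfl := h1_two (k := k2) (hT w q) ((hS w q).t.congr
    (((hh.and fb).and f1).mono fun x y e ⟨⟨⟨⟨g, c⟩, x0, y0, _⟩, d⟩, f⟩ => by
      have c3 := congrFun (congrFun c w) q
      rw [g.cq, g.rw w w1 w2 w3 w4, d, g.rw w w1 w2 w3 w4, c2 x y e, f, d1 x y e] at c3
      rw [← c3]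
      field_simp
      ring))
  exact ⟨c1 x y e, c2 x y e⟩

/-- No connection preserves the line of the flag. -/
theorem conn_flag (hG : Far fun x y => IsG a b p q x y (G x y))
    (hT : ∀ i j, Hol fun x y => T x y i j) (hS : ∀ i j, Bd fun x y => S x y i j)
    (hD : Far fun x y => D x y p p = 2 * x - 5 * x ^ 6 / (2 * y ^ 2) ∧ D x y b p = 0 ∧
      D x y p a = 0 ∧ D x y b a = 0)
    (he : Far fun x y => (y / x ^ 2) ^ 2 • S x y * G x y = G x y * T x y - D x y)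
    (h0 : Far fun x y => T x y b a = 0 ∧ T x y p a = 0 ∧ T x y q a = 0) : False := by
  have b5 : Bd fun x y => -(5 / (2 * x * y)) := ⟨5 / 2, by norm_num,
    far_basic.mono fun x y _ ⟨_, _, x1, y1, _⟩ => by
      rw [norm_neg, norm_div, norm_mul, norm_mul, Complex.norm_ofNat, Complex.norm_ofNat]
      exact div_le_div_of_nonneg_left (by norm_num) two_pos (by nlinarith)⟩
  have := h1_two (k := -(1 / 2)) ((hT p p).sub (hT b p)) ((((hS p p).sub (hS b p).t).sub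
    b5.t.t).congr (((((hG.and hD).and he).and h0).and far_basic).mono
      fun x y e ⟨⟨⟨⟨g, d⟩, c⟩, z⟩, x0, y0, _⟩ => by
        have c1 := congrFun (congrFun c p) p
        have c2 := congrFun (congrFun c b) p
        have c3 := congrFun (congrFun c p) a
        have c4 := congrFun (congrFun c b) a
        rw [g.ca, Matrix.sub_apply, g.rp, z.2.1, z.2.2, d.2.2.1] at c3
        rw [g.ca, Matrix.sub_apply, g.rb, z.1, z.2.2, d.2.2.2] at c4
        rw [g.cp, Matrix.sub_apply, g.rp, c3, d.1] at c1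
        rw [g.cp, Matrix.sub_apply, g.rb, c4, d.2.1] at c2
        simp only [Matrix.smul_apply, smul_eq_mul] at c1 c2
        have s1 : S x y p p = (x ^ 2 / y) ^ 2 * (y / x ^ 2) * (x ^ 2 / y * T x y p p +
            x * T x y q p - (2 * x - 5 * x ^ 6 / (2 * y ^ 2))) := by
          rw [← c1]; field_simp; ring
        have s2 : S x y b p = (x ^ 2 / y) ^ 2 * (y / x ^ 2) * (T x y b p + y / x * T x y q p) := by
          rw [← sub_zero (T x y b p + _), ← c2]; field_simp; ring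
        rw [s1, s2]
        field_simp
        linear_combination (-5 : ℂ) * e))
  norm_num at this

/-- The curvature applied to the first vector of the flag. -/
theorem comm_flag {A B : Matrix ι ι ℂ} (ab : a ≠ b) (hA : ∀ i, i ≠ a → A i a = 0)
    (hB : ∀ i, i ≠ a → i ≠ b → B i a = 0) : (A * B - B * A) a a = A a b * B b a := by
  classical
  rw [Matrix.sub_apply, Matrix.mul_apply, Matrix.mul_apply,
    Finset.sum_eq_add a b ab (fun i _ h => by rw [hB i h.1 h.2, mul_zero]) (by simp) (by simp),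
    Finset.sum_eq_single a (fun i _ h => by rw [hA i h, mul_zero]) (by simp)]
  ring

/-- The matrix of an endomorphism of the bundle over the affine curve. -/
def IsEnd (a b p q : ι) (T : ℂ → ℂ → Matrix ι ι ℂ) : Prop := (∀ i j, Hol fun x y => T x y i j) ∧
  ∃ G S : ℂ → ℂ → Matrix ι ι ℂ, (Far fun x y => IsG a b p q x y (G x y)) ∧
    (∀ i j, Bd fun x y => S x y i j) ∧ Far fun x y => S x y * G x y = G x y * T x y

/-- The matrix of a connection on the bundle over the affine curve. -/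
def IsConn (a b p q : ι) (T : ℂ → ℂ → Matrix ι ι ℂ) : Prop := (∀ i j, Hol fun x y => T x y i j) ∧
  ∃ G S D : ℂ → ℂ → Matrix ι ι ℂ, (Far fun x y => IsG a b p q x y (G x y)) ∧
    (∀ i j, Bd fun x y => S x y i j) ∧
    (Far fun x y => D x y p p = 2 * x - 5 * x ^ 6 / (2 * y ^ 2) ∧ D x y b p = 0 ∧
      D x y p a = 0 ∧ D x y b a = 0) ∧
    Far fun x y => (y / x ^ 2) ^ 2 • S x y * G x y = G x y * T x y - D x y

/-- No connection on the product of two curves is flat. -/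
theorem noflat {p' q' : ι} {A B : ℂ → ℂ → ℂ → ℂ → Matrix ι ι ℂ} (ab : a ≠ b) (pa : p ≠ a)
    (pb : p ≠ b) (qa : q ≠ a) (qb : q ≠ b) (pa' : p' ≠ a) (pb' : p' ≠ b) (qa' : q' ≠ a)
    (qb' : q' ≠ b)
    (h1 : ∀ z w, w ^ 2 = z ^ 5 + 1 →
      IsEnd b a p q (fun x y => B x y z w) ∧ IsConn b a p q fun x y => A x y z w)
    (h2 : ∀ x y, y ^ 2 = x ^ 5 + 1 → IsEnd a b p' q' (A x y) ∧ IsConn a b p' q' (B x y)) :
    ∃ x y z w, y ^ 2 = x ^ 5 + 1 ∧ w ^ 2 = z ^ 5 + 1 ∧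
      (A x y z w * B x y z w - B x y z w * A x y z w) a a ≠ 0 ∧
      (∀ x' y', y' ^ 2 = x' ^ 5 + 1 → B x' y' z w a a = B x y z w a a) ∧
      ∀ z' w', w' ^ 2 = z' ^ 5 + 1 → A x y z' w' a a = A x y z w a a := by
  have eA := fun x y e => let ⟨t, _, _, g, s, c⟩ := (h2 x y e).1; endo_flag g t s c
  have eB := fun z w e => let ⟨t, _, _, g, s, c⟩ := (h1 z w e).1; endo_flag g t s c
  have o : (1 : ℂ) ^ 2 = 0 ^ 5 + 1 := by simp
  obtain ⟨x, y, e, n⟩ : ∃ x y, y ^ 2 = x ^ 5 + 1 ∧ A x y 0 1 a b ≠ 0 := by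
    by_contra! n
    obtain ⟨t, _, _, _, g, s, d, c⟩ := (h1 0 1 o).2
    exact conn_flag g t s d c ⟨0, fun x y e _ =>
      let ⟨_, _, _, f⟩ := eA x y e
      ⟨n x y e, ((f 0 1 o).2.2.2.2 p pa pb).2, ((f 0 1 o).2.2.2.2 q qa qb).2⟩⟩
  obtain ⟨z, w, e', n'⟩ : ∃ z w, w ^ 2 = z ^ 5 + 1 ∧ B 0 1 z w b a ≠ 0 := by
    by_contra! n
    obtain ⟨t, _, _, _, g, s, d, c⟩ := (h2 0 1 o).2
    exact conn_flag g t s d c ⟨0, fun z w e _ =>
      let ⟨_, _, _, f⟩ := eB z w e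
      ⟨n z w e, ((f 0 1 o).2.2.2.2 p' pb' pa').2, ((f 0 1 o).2.2.2.2 q' qb' qa').2⟩⟩
  obtain ⟨_, _, _, f⟩ := eA x y e
  obtain ⟨_, _, _, f'⟩ := eB z w e'
  refine ⟨x, y, z, w, e, e', ?_, fun x' y' c => (f' x' y' c).2.2.1.trans (f' x y e).2.2.1.symm,
    fun z' w' c => (f z' w' c).1.trans (f z w e').1.symm⟩
  rw [comm_flag ab (fun i hi => ?_) fun i h1 h2 => ((f' x y e).2.2.2.2 i h2 h1).2,
    (f z w e').2.1, ← (f 0 1 o).2.1, (f' x y e).2.1, ← (f' 0 1 o).2.1]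
  · exact mul_ne_zero n n'
  · by_cases hb : i = b
    · exact hb ▸ (f z w e').2.2.2.1
    · exact ((f z w e').2.2.2.2 i hi hb).1

end Pool.Agent.Lib.AD86
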