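import Mathlib

/-! Homogeneous holomorphic functions on the complement of the origin. -/

open Filter Topology Finset
open scoped Matrix

noncomputable section

namespace Pool.Agent.Lib.AD86

variable {ι F : Type*} [Fintype ι] [NormedAddCommGroup F] [NormedSpace ℂ F]

/-- Holomorphic outside the origin and homogeneous of degree `d`. -/
structure Hom (d : ℤ) (f : (ι → ℂ) → F) : Prop where
  an : ∀ v, v ≠ 0 → AnalyticAt ℂ f v
  hom : ∀ c : ℂ, c ≠ 0 → ∀ v, v ≠ 0 → f (c • v) = c ^ d • f v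

namespace Hom

variable {d : ℤ} {f : (ι → ℂ) → F}

theorem lim [DecidableEq ι] (h : Hom d f) {a : ℂ}
    (ha : Tendsto (fun t : ℂ => t ^ d) (cocompact ℂ) (𝓝 a)) {v : ι → ℂ} {i j : ι} (hi : v i ≠ 0)
    (hj : i ≠ j) : f v = a • f (Pi.single j 1) := by
  set w : ι → ℂ := Pi.single j 1 with hw
  have n0 : ∀ t : ℂ, v + t • w ≠ 0 := fun t e => hi (by simpa [hw, hj] using congrFun e i)
  have w0 : w ≠ 0 := fun e => by simpa [hw] using congrFun e j
  have d1 : Differentiable ℂ fun t : ℂ => f (v + t • w) := fun t =>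
    (h.an _ (n0 t)).differentiableAt.comp t (by fun_prop)
  have t0 : Tendsto (fun t : ℂ => t⁻¹) (cocompact ℂ) (𝓝 0) := by
    rw [← Metric.cobounded_eq_cocompact]; exact tendsto_inv₀_cobounded
  have t1 : Tendsto (fun t : ℂ => w + t⁻¹ • v) (cocompact ℂ) (𝓝 w) := by
    simpa using (t0.smul_const v).const_add w
  have t2 := ha.smul ((h.an w w0).continuousAt.tendsto.comp t1)
  have := d1.apply_eq_of_tendsto_cocompact 0 (t2.congr'
    ((isCompact_singleton (x := (0 : ℂ))).compl_mem_cocompact |> fun m =>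
      mem_of_superset m fun t ht => by
        have e : v + t • w = t • (w + t⁻¹ • v) := by
          rw [smul_add, smul_inv_smul₀ ht, add_comm]
        show t ^ d • f (w + t⁻¹ • v) = f (v + t • w)
        rw [e, h.hom t ht _ fun e0 => n0 t (by rw [e, e0, smul_zero])]))
  simpa using this

variable [Nontrivial ι]

theorem neg (h : Hom d f) (hd : d < 0) {v : ι → ℂ} (hv : v ≠ 0) : f v = 0 := by
  classical
  obtain ⟨i, hi⟩ := Function.ne_iff.1 hv
  obtain ⟨j, hj⟩ := exists_ne i
  rw [h.lim (a := 0) ?_ hi hj.symm, zero_smul]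
  rw [tendsto_zero_iff_norm_tendsto_zero]
  simpa only [norm_zpow, Function.comp_def] using (tendsto_zpow_atTop_zero hd).comp
    (tendsto_norm_cocompact_atTop (E := ℂ))

theorem zero (h : Hom 0 f) : ∃ a, ∀ v, v ≠ 0 → f v = a := by
  classical
  have k : ∀ {v : ι → ℂ} {i j : ι}, v i ≠ 0 → i ≠ j → f v = f (Pi.single j 1) := fun hi hj => by
    rw [h.lim (a := 1) (by simp) hi hj, one_smul]
  obtain ⟨m⟩ : Nonempty ι := inferInstance
  refine ⟨f (Pi.single m 1), fun v hv => ?_⟩
  obtain ⟨i, hi⟩ := Function.ne_iff.1 hv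
  obtain ⟨j, hj⟩ := exists_ne i
  rw [k hi hj.symm]
  by_cases e : j = m
  · rw [e]
  · exact k (i := j) (by simp) e

omit [Nontrivial ι] in
theorem fd [CompleteSpace F] (h : Hom d f) : Hom (d - 1) (fderiv ℂ f) where
  an v hv := (h.an v hv).fderiv
  hom c hc v hv := by
    have a := ((h.an _ (smul_ne_zero hc hv)).differentiableAt.hasFDerivAt.comp v
      ((hasFDerivAt_id v).const_smul c)).unique
      (((h.an v hv).differentiableAt.hasFDerivAt.const_smul (c ^ d)).congr_of_eventuallyEq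
        ((isOpen_ne.eventually_mem hv).mono fun w hw => h.hom c hc w hw))
    ext1 w
    have b := congrArg (fun L => c⁻¹ • L w) a
    simp only [ContinuousLinearMap.comp_apply, smul_apply,
      ContinuousLinearMap.id_apply, map_smul, inv_smul_smul₀ hc] at b
    rw [b, smul_apply, smul_smul, zpow_sub_one₀ hc, mul_comm]

omit [Nontrivial ι] in
/-- The identity of Euler. -/
theorem euler (h : Hom d f) {v : ι → ℂ} (hv : v ≠ 0) : fderiv ℂ f v v = (d : ℂ) • f v := by
  have a : HasDerivAt (fun c : ℂ => f (c • v)) (fderiv ℂ f v v) 1 := by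
    have b : HasFDerivAt f (fderiv ℂ f v) ((1 : ℂ) • v) := by
      rw [one_smul]; exact (h.an v hv).differentiableAt.hasFDerivAt
    simpa [Function.comp_def] using b.comp_hasDerivAt 1 ((hasDerivAt_id (1 : ℂ)).smul_const v)
  simpa using a.unique (((hasDerivAt_zpow d (1 : ℂ) (Or.inl one_ne_zero)).smul_const
    (f v)).congr_of_eventuallyEq ((isOpen_ne.eventually_mem one_ne_zero).mono fun c hc =>
      h.hom c hc v hv))

theorem one [CompleteSpace F] (h : Hom 1 f) :
    ∃ L : (ι → ℂ) →L[ℂ] F, ∀ v, v ≠ 0 → f v = L v := by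
  obtain ⟨L, hL⟩ := Hom.zero (f := fderiv ℂ f) (by simpa using h.fd)
  exact ⟨L, fun v hv => by simpa [hL v hv] using (h.euler hv).symm⟩

end Hom

/-- The exterior product of `v` and `w`. -/
def wd (v w : ι → ℂ) (i j : ι) : ℂ := v i * w j - v j * w i

omit [Fintype ι] in
theorem wd_eq {v w u : ι → ℂ} (hv : v ≠ 0) (h : ∀ i j, wd v w i j = wd v u i j) :
    ∃ c : ℂ, w = u + c • v := by
  obtain ⟨i, hi⟩ := Function.ne_iff.1 hv
  refine ⟨(w i - u i) / v i, funext fun j => ?_⟩
  have := h i j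
  simp only [wd, Pi.zero_apply, Pi.add_apply, Pi.smul_apply, smul_eq_mul] at this hi ⊢
  field_simp
  linear_combination this

/-- A twisted vector field on the projective space lifts to a homogeneous vector field. -/
theorem koszul {d : ℤ} {ξ : (ι → ℂ) → ι → ℂ} (h : ∀ i j, Hom d fun v => wd v (ξ v) i j)
    (hn : (Fintype.card ι : ℂ) + d - 2 ≠ 0) : ∃ D : (ι → ℂ) → ι → ℂ, Hom (d - 1) D ∧
      ∀ v, v ≠ 0 → ∀ i j, wd v (ξ v) i j = wd v (D v) i j := by
  classical
  refine ⟨fun v j => ((Fintype.card ι : ℂ) + d - 2)⁻¹ *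
    ∑ k, fderiv ℂ (fun v => wd v (ξ v) k j) v (Pi.single k 1), ⟨fun v hv => ?_,
      fun c hc v hv => funext fun j => ?_⟩, fun v hv i j => ?_⟩
  · exact analyticAt_pi_iff.2 fun j => analyticAt_const.mul (Finset.analyticAt_fun_sum _
      fun k _ => ((ContinuousLinearMap.apply ℂ ℂ (Pi.single k 1 : ι → ℂ)).analyticAt _).comp
        ((h k j).fd.an v hv))
  · simp only [fun k => (h k j).fd.hom c hc v hv, smul_apply, smul_eq_mul,
      Pi.smul_apply, ← mul_sum]
    ring
  · have dq := fun i j => ((h i j).an v hv).differentiableAt.hasFDerivAt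
    have dp := fun i => hasFDerivAt_apply (𝕜 := ℂ) i v
    have a : ∀ k, _ := fun k => congrArg (fun L => L (Pi.single k 1))
      ((((dp i).mul (dq k j)).sub ((dp j).mul (dq k i))).unique
        (((dp k).mul (dq i j)).congr_of_eventuallyEq (Eventually.of_forall fun w => by
          simp only [wd, Pi.mul_apply, Pi.sub_apply]; ring)))
    have b := sum_congr (rfl : (univ : Finset ι) = univ) fun k _ => a k
    have e := (h i j).euler hv
    have s : v = ∑ k, v k • (Pi.single k 1 : ι → ℂ) := by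
      ext m; simp [Finset.sum_apply, Pi.single_apply]
    nth_rewrite 2 [s] at e
    simp only [sub_apply, add_apply,
      smul_apply, ContinuousLinearMap.proj_apply, smul_eq_mul, map_sum,
      map_smul, sum_sub_distrib, sum_add_distrib, ← mul_sum, Pi.single_apply, mul_ite, mul_one,
      mul_zero, sum_ite_eq, mem_univ, if_true, sum_const, card_univ, nsmul_eq_mul] at b e
    rw [e] at b
    have c : wd v (ξ v) j i = -wd v (ξ v) i j := by simp only [wd]; ring
    rw [c] at b
    refine mul_left_cancel₀ hn ?_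
    conv_rhs => rw [wd, mul_sub, mul_left_comm, mul_inv_cancel_left₀ hn, mul_left_comm _ (v j),
      mul_inv_cancel_left₀ hn]
    linear_combination -b

variable [DecidableEq ι]

/-- The matrix read off from the exterior products. -/
def mo (Q : ι → ι → (ι → ℂ) → ℂ) : Matrix ι ι ℂ := Matrix.of fun j i =>
  if j = i then -(Fintype.card ι : ℂ)⁻¹ * ∑ k, (Q i k (Pi.single i 1 + Pi.single k 1) -
    Q i k (Pi.single i 1) + Q k i (Pi.single k 1)) else Q i j (Pi.single i 1)

theorem mo_eq {Q : ι → ι → (ι → ℂ) → ℂ} {A : Matrix ι ι ℂ} (hA : A.trace = 0)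
    (h : ∀ v, v ≠ 0 → ∀ i j, Q i j v = wd v (A *ᵥ v) i j) : mo Q = A := by
  have n1 : ∀ i, (Pi.single i 1 : ι → ℂ) ≠ 0 := fun i e => by simpa using congrFun e i
  have n2 : ∀ i k, (Pi.single i 1 + Pi.single k 1 : ι → ℂ) ≠ 0 := fun i k e => by
    have := congrFun e i
    by_cases q : i = k <;> simp [q] at this
  ext j i
  rw [mo, Matrix.of_apply]
  split_ifs with e
  · subst e
    have c : (Fintype.card ι : ℂ) ≠ 0 := Nat.cast_ne_zero.2 (Fintype.card_pos_iff.2 ⟨j⟩).ne'
    have : ∀ k, Q j k (Pi.single j 1 + Pi.single k 1) - Q j k (Pi.single j 1) +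
        Q k j (Pi.single k 1) = A k k - A j j := fun k => by
      rw [h _ (n2 j k), h _ (n1 j), h _ (n1 k)]
      by_cases q : j = k
      · simp [wd, q]
      · simp [wd, q, Ne.symm q, Matrix.mulVec_add]; ring
    simp only [this, sum_sub_distrib, sum_const, card_univ, nsmul_eq_mul]
    rw [show ∑ k, A k k = 0 from hA]
    field_simp
    ring
  · rw [h _ (n1 i)]
    simp [wd, e]

theorem wd_sub (A : Matrix ι ι ℂ) (c : ℂ) (v : ι → ℂ) (i j : ι) :
    wd v ((A - c • (1 : Matrix ι ι ℂ)) *ᵥ v) i j = wd v (A *ᵥ v) i j := by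
  simp only [wd, Matrix.sub_mulVec, Matrix.smul_mulVec, Matrix.one_mulVec, Pi.sub_apply,
    Pi.smul_apply, smul_eq_mul]
  ring

theorem tr_sub [Nonempty ι] (A : Matrix ι ι ℂ) :
    (A - (A.trace / Fintype.card ι) • (1 : Matrix ι ι ℂ)).trace = 0 := by
  rw [Matrix.trace_sub, Matrix.trace_smul, Matrix.trace_one, smul_eq_mul,
    div_mul_cancel₀ _ (Nat.cast_ne_zero.2 Fintype.card_ne_zero), sub_self]

/-- A matrix for which every vector is an eigenvector is scalar. -/
theorem scalar [Nonempty ι] {A : Matrix ι ι ℂ} (h : ∀ v, v ≠ 0 → ∀ i j, wd v (A *ᵥ v) i j = 0) :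
    ∃ c : ℂ, A = c • (1 : Matrix ι ι ℂ) :=
  ⟨_, sub_eq_zero.1 ((mo_eq (Q := fun _ _ _ => 0) (tr_sub A) fun v hv i j => by
    rw [wd_sub, h v hv]).symm.trans (mo_eq (by simp) fun v _ i j => by simp [wd]))⟩

variable [Nontrivial ι]

/-- Holomorphic vector fields on the projective space are linear. -/
theorem field {ξ : (ι → ℂ) → ι → ℂ} (h : ∀ i j, Hom 2 fun v => wd v (ξ v) i j) :
    (mo fun i j v => wd v (ξ v) i j).trace = 0 ∧ ∀ v, v ≠ 0 → ∀ i j,
      wd v (ξ v) i j = wd v ((mo fun i j v => wd v (ξ v) i j) *ᵥ v) i j := by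
  obtain ⟨D, h1, h2⟩ := koszul h (by simp)
  obtain ⟨L, hL⟩ := Hom.one (f := D) (by simpa using h1)
  have e : ∀ v, v ≠ 0 → ∀ i j, wd v (ξ v) i j = wd v ((LinearMap.toMatrix' L.toLinearMap -
      ((LinearMap.toMatrix' L.toLinearMap).trace / Fintype.card ι) • (1 : Matrix ι ι ℂ)) *ᵥ v)
      i j := fun v hv i j => by
    rw [wd_sub, LinearMap.toMatrix'_mulVec, h2 v hv, hL v hv]; rfl
  rw [mo_eq (tr_sub _) e]
  exact ⟨tr_sub _, e⟩

omit [DecidableEq ι] in
/-- Sections of the tangent bundle twisted by minus one are constant. -/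
theorem field1 {ξ : (ι → ℂ) → ι → ℂ} (h : ∀ i j, Hom 1 fun v => wd v (ξ v) i j) :
    ∃ u : ι → ℂ, ∀ v, v ≠ 0 → ∀ i j, wd v (ξ v) i j = wd v u i j := by
  obtain ⟨D, h1, h2⟩ := koszul h (by
    have : (Fintype.card ι : ℂ) ≠ 1 := by exact_mod_cast Fintype.one_lt_card.ne'
    intro e; apply this; push_cast at e; linear_combination e)
  obtain ⟨u, hu⟩ := Hom.zero (f := D) (by simpa using h1)
  exact ⟨u, fun v hv i j => by rw [h2 v hv, hu v hv]⟩

/-- Endomorphisms of the tangent bundle of the projective space are scalar. -/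
theorem endo {P : (ι → ℂ) → Matrix ι ι ℂ}
    (h : ∀ k i j, Hom 1 fun v => wd v (fun m => P v m k) i j)
    (h0 : ∀ v, v ≠ 0 → ∀ i j, wd v (P v *ᵥ v) i j = 0) :
    ∃ c : ℂ, ∀ v, v ≠ 0 → ∀ w i j, wd v (P v *ᵥ w) i j = c * wd v w i j := by
  choose u hu using fun k => field1 (h k)
  have e : ∀ v, v ≠ 0 → ∀ w i j, wd v (P v *ᵥ w) i j =
      wd v ((Matrix.of fun m k => u k m) *ᵥ w) i j := fun v hv w i j => by
    have := fun k => hu k v hv i j
    simp only [wd, Matrix.mulVec, dotProduct, Matrix.of_apply, mul_sum,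
      ← sum_sub_distrib] at this ⊢
    exact sum_congr rfl fun k _ => by linear_combination w k * this k
  obtain ⟨c, hc⟩ := scalar fun v hv i j => (e v hv v i j).symm.trans (h0 v hv i j)
  refine ⟨c, fun v hv w i j => ?_⟩
  rw [e v hv, hc]
  simp only [wd, Matrix.smul_mulVec, Matrix.one_mulVec, Pi.smul_apply, smul_eq_mul]
  ring

end Pool.Agent.Lib.AD86
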