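import Mathlib

/-! The theorem of Liouville on the affine curve `y ^ 2 = x ^ 5 + 1`. -/

open Set Filter Topology Complex

noncomputable section

namespace Pool.Agent.Lib.AD86

/-- A function that is holomorphic on the affine curve. -/
structure Hol (u : ℂ → ℂ → ℂ) : Prop where
  cont : ContinuousOn (fun q : ℂ × ℂ => u q.1 q.2) {q | q.2 ^ 2 = q.1 ^ 5 + 1}
  diff : ∀ (Y : ℂ → ℂ) (x : ℂ), AnalyticAt ℂ Y x → Y x ≠ 0 → (∀ᶠ t in 𝓝 x, Y t ^ 2 = t ^ 5 + 1) →
    DifferentiableAt ℂ (fun t => u t (Y t)) x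

/-- A square root of `x ^ 5 + 1`. -/
def rt (x : ℂ) : ℂ := (x ^ 5 + 1) ^ (2⁻¹ : ℂ)

theorem rt_sq (x : ℂ) : rt x ^ 2 = x ^ 5 + 1 := cpow_ofNat_inv_pow _ 2

/-- It is enough to test along analytic arcs. -/
theorem Hol.of_arcs {u : ℂ → ℂ → ℂ} (h : ∀ (X Y : ℂ → ℂ) (t : ℂ), AnalyticAt ℂ X t →
    AnalyticAt ℂ Y t → (∀ᶠ s in 𝓝 t, Y s ^ 2 = X s ^ 5 + 1) →
    DifferentiableAt ℂ (fun s => u (X s) (Y s)) t) : Hol u := by
  refine ⟨fun ⟨x, y⟩ hq => ?_, fun Y x h1 _ h3 => h id Y x analyticAt_id h1 h3⟩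
  have hq : y ^ 2 = x ^ 5 + 1 := hq
  by_cases hy : y = 0
  · have x5 : x ^ 5 = -1 := by rw [hy] at hq; linear_combination -hq
    have x0 : x ≠ 0 := by rintro rfl; simp at x5
    set X : ℂ → ℂ := fun s => x * (1 - s ^ 2) ^ (5⁻¹ : ℂ) with hX
    have q : ∀ s, X s ^ 5 = s ^ 2 - 1 := fun s => by
      rw [hX, mul_pow, cpow_ofNat_inv_pow, x5]; ring
    have X0 : X y = x := by simp [hX, hy]
    have an : AnalyticAt ℂ X y := analyticAt_const.mul (AnalyticAt.cpow (by fun_prop)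
      analyticAt_const (by simp [hy]))
    have c1 : ContinuousAt (fun q : ℂ × ℂ => X q.2) (x, y) :=
      an.continuousAt.comp (f := Prod.snd) (x := (x, y)) continuousAt_snd
    have c2 := ((h X id y an analyticAt_id (Eventually.of_forall fun s => by
      rw [q]; simp)).continuousAt.comp (f := Prod.snd) (x := (x, y))
        continuousAt_snd).continuousWithinAt (s := {q | q.2 ^ 2 = q.1 ^ 5 + 1})
    have c3 : ContinuousAt (fun q : ℂ × ℂ => q.1 ^ 4 + q.1 ^ 3 * X q.2 + q.1 ^ 2 * X q.2 ^ 2 +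
        q.1 * X q.2 ^ 3 + X q.2 ^ 4) (x, y) := by fun_prop
    refine c2.congr_of_eventuallyEq ?_ (by simp [X0])
    filter_upwards [self_mem_nhdsWithin, mem_nhdsWithin_of_mem_nhds (c3.eventually_ne (y := 0) (by
      simp only [X0]
      rw [show x ^ 4 + x ^ 3 * x + x ^ 2 * x ^ 2 + x * x ^ 3 + x ^ 4 = 5 * x ^ 4 by ring]
      exact mul_ne_zero (by norm_num) (pow_ne_zero _ x0)))] with p h1 h2
    have h1 : p.2 ^ 2 = p.1 ^ 5 + 1 := h1
    have : p.1 = X p.2 := sub_eq_zero.1 ((mul_eq_zero.1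
      (show _ * _ = (0 : ℂ) by linear_combination -h1 - q p.2)).resolve_right h2)
    exact congrArg (u · p.2) this
  · have hx : x ^ 5 + 1 ≠ 0 := hq ▸ pow_ne_zero 2 hy
    set Y : ℂ → ℂ := fun t => y * ((t ^ 5 + 1) / (x ^ 5 + 1)) ^ (2⁻¹ : ℂ) with hY
    have q : ∀ t, Y t ^ 2 = t ^ 5 + 1 := fun t => by
      rw [hY, mul_pow, cpow_ofNat_inv_pow, hq, mul_div_cancel₀ _ hx]
    have Y0 : Y x = y := by simp [hY, div_self hx]
    have an : AnalyticAt ℂ Y x := analyticAt_const.mul (AnalyticAt.cpow (by fun_prop)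
      analyticAt_const (by rw [div_self hx]; exact one_mem_slitPlane))
    have c1 : ContinuousAt (fun q : ℂ × ℂ => Y q.1) (x, y) :=
      an.continuousAt.comp (f := Prod.fst) (x := (x, y)) continuousAt_fst
    have c2 := ((h id Y x analyticAt_id an (Eventually.of_forall q)).continuousAt.comp
      (f := Prod.fst) (x := (x, y))
        continuousAt_fst).continuousWithinAt (s := {q | q.2 ^ 2 = q.1 ^ 5 + 1})
    have c3 : ContinuousAt (fun q : ℂ × ℂ => q.2 + Y q.1) (x, y) := by fun_prop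
    refine c2.congr_of_eventuallyEq ?_ (by simp [Y0])
    filter_upwards [self_mem_nhdsWithin, mem_nhdsWithin_of_mem_nhds (c3.eventually_ne (y := 0) (by
      simpa [Y0] using hy))] with p h1 h2
    have h1 : p.2 ^ 2 = p.1 ^ 5 + 1 := h1
    have : p.2 = Y p.1 := sub_eq_zero.1 ((mul_eq_zero.1
      (show _ * _ = (0 : ℂ) by linear_combination h1 - q p.1)).resolve_right h2)
    exact congrArg (u p.1) this

theorem Hol.neg {u : ℂ → ℂ → ℂ} (h : Hol u) : Hol fun x y => u x (-y) where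
  cont := h.cont.comp (f := fun q : ℂ × ℂ => (q.1, -q.2)) (by fun_prop)
    fun q hq => by simpa using hq
  diff Y x h1 h2 h3 := h.diff (fun t => -Y t) x h1.neg (neg_ne_zero.2 h2)
    (h3.mono fun t ht => by simpa using ht)

theorem Hol.even {u : ℂ → ℂ → ℂ} (h : Hol u) (he : ∀ x y, u x (-y) = u x y) :
    Differentiable ℂ fun x => u x (rt x) := by
  have a : ∀ x, x ^ 5 + 1 ≠ 0 → DifferentiableAt ℂ (fun x => u x (rt x)) x := fun x hx => by
    have r0 : rt x ≠ 0 := fun h0 => hx (by rw [← rt_sq, h0]; ring)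
    have q : ∀ t, (rt x * ((t ^ 5 + 1) / (x ^ 5 + 1)) ^ (2⁻¹ : ℂ)) ^ 2 = t ^ 5 + 1 := fun t => by
      rw [mul_pow, cpow_ofNat_inv_pow, rt_sq, mul_div_cancel₀ _ hx]
    have an : AnalyticAt ℂ (fun t => rt x * ((t ^ 5 + 1) / (x ^ 5 + 1)) ^ (2⁻¹ : ℂ)) x :=
      analyticAt_const.mul (AnalyticAt.cpow (by fun_prop) analyticAt_const
        (by rw [div_self hx]; exact one_mem_slitPlane))
    refine (h.diff _ x an (by rw [div_self hx, one_cpow, mul_one]; exact r0)
      (Eventually.of_forall q)).congr_of_eventuallyEq (Eventually.of_forall fun t => ?_)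
    rcases sq_eq_sq_iff_eq_or_eq_neg.1 ((rt_sq t).trans (q t).symm) with e | e
    · exact congrArg (u t) e
    · exact (congrArg (u t) e).trans (he _ _)
  intro c
  by_cases hc : c ^ 5 + 1 = 0
  swap
  · exact a c hc
  have an : AnalyticAt ℂ (fun t : ℂ => t ^ 5 + 1) c := by fun_prop
  refine (analyticAt_of_differentiable_on_punctured_nhds_of_continuousAt ?_ ?_).differentiableAt
  · refine (an.eventually_eq_zero_or_eventually_ne_zero.resolve_left fun h0 => ?_).mono a
    have := (show AnalyticOnNhd ℂ (fun t : ℂ => t ^ 5 + 1) univ from fun _ _ => by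
      fun_prop).eqOn_zero_of_preconnected_of_eventuallyEq_zero isPreconnected_univ (mem_univ c) h0
      (mem_univ 0)
    simp at this
  · have r0 : rt c = 0 := pow_eq_zero_iff two_ne_zero |>.1 ((rt_sq c).trans hc)
    have r1 : ContinuousAt rt c := by
      rw [ContinuousAt, r0, tendsto_zero_iff_norm_tendsto_zero]
      have := (an.continuousAt.tendsto.norm).sqrt
      simp only [hc, norm_zero, Real.sqrt_zero] at this
      exact this.congr fun t => by rw [← rt_sq, norm_pow, Real.sqrt_sq (norm_nonneg _)]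
    exact (h.cont (c, rt c) (rt_sq c)).tendsto.comp (tendsto_nhdsWithin_iff.2
      ⟨continuousAt_id.prodMk r1, Eventually.of_forall rt_sq⟩)

theorem quot {v : ℂ → ℂ} (hv : Differentiable ℂ v) (h0 : ∀ c, c ^ 5 + 1 = 0 → v c = 0) :
    ∃ g : ℂ → ℂ, Differentiable ℂ g ∧ ∀ x, v x = (x ^ 5 + 1) * g x := by
  classical
  refine ⟨fun x => if x ^ 5 + 1 = 0 then deriv v x / (5 * x ^ 4) else v x / (x ^ 5 + 1),
    fun c => ?_, fun x => ?_⟩
  · by_cases hc : c ^ 5 + 1 = 0
    · have c0 : c ≠ 0 := by rintro rfl; simp at hc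
      have d : DifferentiableAt ℂ (dslope v c) c :=
        ((differentiableOn_dslope (s := univ) univ_mem).2 hv.differentiableOn).differentiableAt
          univ_mem
      have n0 : c ^ 4 + c ^ 3 * c + c ^ 2 * c ^ 2 + c * c ^ 3 + c ^ 4 ≠ 0 := by
        rw [show c ^ 4 + c ^ 3 * c + c ^ 2 * c ^ 2 + c * c ^ 3 + c ^ 4 = 5 * c ^ 4 by ring]
        exact mul_ne_zero (by norm_num) (pow_ne_zero _ c0)
      have cn : ContinuousAt (fun t : ℂ => t ^ 4 + t ^ 3 * c + t ^ 2 * c ^ 2 + t * c ^ 3 + c ^ 4)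
        c := by fun_prop
      refine (d.div (d := fun t : ℂ => t ^ 4 + t ^ 3 * c + t ^ 2 * c ^ 2 + t * c ^ 3 + c ^ 4)
        (by fun_prop) n0).congr_of_eventuallyEq ((cn.eventually_ne n0).mono fun t ht => ?_)
      have e : t ^ 5 + 1 = (t - c) * (t ^ 4 + t ^ 3 * c + t ^ 2 * c ^ 2 + t * c ^ 3 + c ^ 4) := by
        linear_combination hc
      by_cases htc : t = c
      · subst htc
        simp only [hc, if_true, Pi.div_apply, dslope_same]
        congr 1; ring
      · have t0 := sub_ne_zero.2 htc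
        simp only [Pi.div_apply]
        rw [if_neg (e ▸ mul_ne_zero t0 ht), dslope_of_ne _ htc, slope_def_field, h0 c hc, sub_zero,
          div_div, ← e]
    · have cn : ContinuousAt (fun t : ℂ => t ^ 5 + 1) c := by fun_prop
      exact ((hv c).div (d := fun t : ℂ => t ^ 5 + 1) (by fun_prop) hc).congr_of_eventuallyEq
        ((cn.eventually_ne hc).mono fun t ht => if_neg ht)
  · by_cases hx : x ^ 5 + 1 = 0
    · rw [hx, zero_mul, h0 x hx]
    · simp only [if_neg hx]; rw [mul_div_cancel₀ _ hx]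

theorem nrm : Tendsto (fun x : ℂ => ‖x‖) (cocompact ℂ) atTop := tendsto_norm_cocompact_atTop

theorem far (R : ℝ) : ∀ᶠ x : ℂ in cocompact ℂ, R ≤ ‖x‖ :=
  nrm (eventually_ge_atTop R)

theorem lim_rt : Tendsto (fun x : ℂ => ‖x‖ ^ 2 / ‖rt x‖) (cocompact ℂ) (𝓝 0) := by
  have a : Tendsto (fun x : ℂ => √(2 * ‖x‖⁻¹)) (cocompact ℂ) (𝓝 0) := by
    simpa using ((tendsto_inv_atTop_zero.comp nrm).const_mul 2).sqrt
  refine squeeze_zero' (Eventually.of_forall fun x => by positivity) ((far 2).mono fun x hx => ?_) a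
  have b : ‖x‖ ^ 5 - 1 ≤ ‖rt x‖ ^ 2 := by
    rw [← norm_pow (rt x), rt_sq, ← norm_pow]
    have := norm_sub_norm_le (x ^ 5) (-1)
    rwa [norm_neg, norm_one, sub_neg_eq_add] at this
  have c : (2 : ℝ) ^ 5 ≤ ‖x‖ ^ 5 := pow_le_pow_left₀ (by norm_num) hx 5
  have x0 : 0 < ‖x‖ := by linarith
  refine Real.le_sqrt_of_sq_le ?_
  rw [div_pow, div_le_iff₀ (by linarith), ← div_eq_mul_inv, div_mul_eq_mul_div, le_div_iff₀ x0]
  nlinarith

/-- The class of `y / x` is not a coboundary. -/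
theorem ft1' {u : ℂ → ℂ → ℂ} (h : Hol u) {k : ℂ} {K R : ℝ}
    (hb : ∀ x y, y ^ 2 = x ^ 5 + 1 → R ≤ ‖x‖ → ‖u x y - k * (y / x)‖ ≤ K * ‖x‖) :
    k = 0 ∧ ∀ x, u x (-rt x) = u x (rt x) := by
  have hv : Hol fun x y => y * (u x y - u x (-y)) :=
    ⟨continuous_snd.continuousOn.mul (h.cont.sub h.neg.cont), fun Y x h1 h2 h3 =>
      h1.differentiableAt.mul ((h.diff Y x h1 h2 h3).sub (h.neg.diff Y x h1 h2 h3))⟩
  obtain ⟨g, g1, g2⟩ := quot (hv.even fun x y => by rw [neg_neg]; ring) fun c hc => by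
    rw [pow_eq_zero_iff two_ne_zero |>.1 ((rt_sq c).trans hc), zero_mul]
  have t : Tendsto (fun x => x * g x) (cocompact ℂ) (𝓝 (2 * k)) := by
    rw [tendsto_iff_norm_sub_tendsto_zero]
    refine squeeze_zero' (Eventually.of_forall fun x => norm_nonneg _)
      (((far R).and (far 2)).mono fun x hx => ?_) (by simpa using lim_rt.const_mul (2 * K))
    have x0 : x ≠ 0 := norm_pos_iff.1 (by linarith [hx.2])
    have r0 : rt x ≠ 0 := fun h0 => by
      have e : x ^ 5 = -1 := by have := rt_sq x; rw [h0] at this; linear_combination -this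
      have := congrArg norm e
      rw [norm_pow, norm_neg, norm_one] at this
      linarith [pow_le_pow_left₀ (by norm_num) hx.2 5]
    have e : x * g x - 2 * k =
        x / rt x * ((u x (rt x) - k * (rt x / x)) - (u x (-rt x) - k * (-rt x / x))) := by
      have := g2 x
      rw [← rt_sq, sq, mul_assoc] at this
      have := mul_left_cancel₀ r0 this
      field_simp
      linear_combination -x * this
    have b := (norm_sub_le _ _).trans (add_le_add (hb x _ (rt_sq x) hx.1)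
      (hb x (-rt x) (by rw [neg_sq, rt_sq]) hx.1))
    rw [e, norm_mul, norm_div]
    refine (mul_le_mul_of_nonneg_left b (by positivity)).trans_eq (by ring)
  have c := fun x => (differentiable_id.mul g1).apply_eq_of_tendsto_cocompact x t
  have k0 : k = 0 := by simpa using c 0
  have g0 : g = 0 := g1.continuous.ext_on (dense_compl_singleton 0) continuous_zero fun x hx => by
    simpa [k0, show x ≠ 0 from hx] using c x
  refine ⟨k0, fun x => ?_⟩
  have := g2 x
  rw [g0, Pi.zero_apply, mul_zero, mul_eq_zero] at this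
  rcases this with e | e
  · rw [e, neg_zero]
  · exact (sub_eq_zero.1 e).symm

theorem ft1 {u : ℂ → ℂ → ℂ} (h : Hol u) {k : ℂ} {K R : ℝ}
    (hb : ∀ x y, y ^ 2 = x ^ 5 + 1 → R ≤ ‖x‖ → ‖u x y - k * (y / x)‖ ≤ K * ‖x‖) : k = 0 :=
  (ft1' h hb).1

/-- A function of small growth is constant. -/
theorem ft0 {u : ℂ → ℂ → ℂ} (h : Hol u) {K R : ℝ}
    (hb : ∀ x y, y ^ 2 = x ^ 5 + 1 → R ≤ ‖x‖ → ‖u x y‖ ≤ K * √‖x‖) :
    ∃ c, ∀ x y, y ^ 2 = x ^ 5 + 1 → u x y = c := by
  have e := (ft1' h (k := 0) (K := |K|) (R := max R 1) fun x y hy hx => by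
    rw [zero_mul, sub_zero]
    refine (hb x y hy (le_of_max_le_left hx)).trans (mul_le_mul (le_abs_self K) ?_
      (Real.sqrt_nonneg _) (abs_nonneg K))
    exact Real.sqrt_le_iff.2 ⟨norm_nonneg _, by nlinarith [le_of_max_le_right hx]⟩).2
  have hv : Hol fun x y => u x y + u x (-y) := ⟨h.cont.add h.neg.cont, fun Y x h1 h2 h3 =>
    (h.diff Y x h1 h2 h3).add (h.neg.diff Y x h1 h2 h3)⟩
  have d := hv.even fun x y => by rw [neg_neg, add_comm]
  simp only [e] at d
  set p := fun x => u x (rt x) + u x (rt x) with hp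
  have d1 : Differentiable ℂ (dslope p 0) := differentiableOn_univ.1
    ((differentiableOn_dslope (s := univ) univ_mem).2 d.differentiableOn)
  have n := nrm
  have t : Tendsto (dslope p 0) (cocompact ℂ) (𝓝 0) := by
    rw [tendsto_zero_iff_norm_tendsto_zero]
    refine squeeze_zero' (Eventually.of_forall fun x => norm_nonneg _)
      (((far R).and (far 1)).mono fun x hx => ?_)
      (show Tendsto (fun x : ℂ => 2 * K * (√‖x‖)⁻¹ + ‖p 0‖ * ‖x‖⁻¹) _ _ by
        simpa using ((tendsto_inv_atTop_zero.comp (Real.tendsto_sqrt_atTop.comp n)).const_mul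
          (2 * K)).add ((tendsto_inv_atTop_zero.comp n).const_mul ‖p 0‖))
    have x0 : 0 < ‖x‖ := by linarith [hx.2]
    have s0 : 0 < √‖x‖ := Real.sqrt_pos.2 x0
    rw [dslope_of_ne _ (norm_pos_iff.1 x0), slope_def_field, sub_zero, norm_div, div_le_iff₀ x0]
    have b := hb x _ (rt_sq x) hx.1
    refine ((norm_sub_le _ _).trans (add_le_add ((norm_add_le _ _).trans (add_le_add b b))
      le_rfl)).trans_eq ?_
    have := Real.mul_self_sqrt x0.le
    generalize √‖x‖ = s at this s0 ⊢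
    rw [← this]
    field_simp
    ring
  refine ⟨p 0 / 2, fun x y hy => ?_⟩
  have a := sub_smul_dslope p 0 x
  rw [d1.apply_eq_of_tendsto_cocompact x t, smul_zero] at a
  have b : u x y = u x (rt x) := by
    rcases sq_eq_sq_iff_eq_or_eq_neg.1 (hy.trans (rt_sq x).symm) with q | q <;> rw [q]
    exact e x
  rw [b, ← sub_eq_zero.1 a.symm, hp]
  ring

end Pool.Agent.Lib.AD86
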